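import Pool.Agent.L7h48.RT.Stm

set_option autoImplicit false

/-! Project RT, part ASY: choice of the parameters. -/

namespace Pool.Agent.L7h40.RT
open Filter Topology MeasureTheory Pool.Agent.L7h48.RT

theorem rpow_three_half {x : ℝ} (hx : 0 < x) : x ^ (3 / 2 : ℝ) = x * Real.sqrt x := by
  rw [show (3 / 2 : ℝ) = 1 + 1 / 2 by norm_num, Real.rpow_add hx, Real.rpow_one,
    ← Real.sqrt_eq_rpow]

theorem expo {d β α η : ℝ} (hd : 0 < d) (hβ : 0 < β) (hα : 0 < α) (hη : 0 < η) {x q A c D : ℝ}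
    (hx : 0 < x) (hq : d / x ≤ q) (hA : β * x / 4 ≤ A) (hc : 0 < c) (hc2 : c ≤ α * x)
    (hD : (η * x) ^ 2 / 8 ≤ D) :
    d * β * η ^ 2 / (32 * α) * x ≤ q * A / c * D := by
  have h1 : d * β / 4 ≤ q * A := by
    calc d * β / 4 = d / x * (β * x / 4) := by field_simp
      _ ≤ q * A := mul_le_mul hq hA (by positivity) (le_trans (by positivity) hq)
  have h2 : d * β / 4 / (α * x) ≤ q * A / c :=
    div_le_div₀ (le_trans (by positivity) h1) h1 hc hc2
  calc d * β * η ^ 2 / (32 * α) * x = d * β / 4 / (α * x) * ((η * x) ^ 2 / 8) := by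
        field_simp
        ring
    _ ≤ q * A / c * D := mul_le_mul h2 hD (by positivity) (le_trans (by positivity) h2)

theorem s_ASY : S_ASY := by
  intro α η d B hα hη hd hB
  set β : ℝ := min α (η / 2) with hβ
  have hβ0 : 0 < β := lt_min hα (by positivity)
  have hβα : β ≤ α := min_le_left _ _
  have hβη : β ≤ η / 2 := min_le_right _ _
  set θ : ℝ := d * β * η ^ 2 / (32 * α) with hθ
  have hθ0 : 0 < θ := by positivity
  set u : ℝ := min 1 (θ / (4 * α)) with hu
  have hu0 : 0 < u := lt_min one_pos (by positivity)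
  have hu1 : u ≤ 1 := min_le_left _ _
  have huα : α * u ≤ θ / 4 := by
    have h : u ≤ θ / (4 * α) := min_le_right _ _
    calc α * u ≤ α * (θ / (4 * α)) := mul_le_mul_of_nonneg_left h hα.le
      _ = θ / 4 := by field_simp
  have hlog : 0 < Real.log (2 / u) := by
    apply Real.log_pos
    rw [lt_div_iff₀ hu0]
    linarith
  set l : ℝ := 1 + 4 / β + 4 * Real.log (2 / u) / θ with hl
  have hl1 : 1 ≤ l := by
    have h1 : 0 < 4 / β := by positivity
    have h2 : 0 < 4 * Real.log (2 / u) / θ := by positivity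
    linarith
  have hl0 : 0 < l := by linarith
  have hlβ : 1 / l ≤ β / 4 := by
    rw [div_le_div_iff₀ hl0 (by norm_num)]
    have h1 : 4 / β ≤ l := by
      have h2 : 0 < 4 * Real.log (2 / u) / θ := by positivity
      linarith
    rw [div_le_iff₀ hβ0] at h1
    linarith
  have hlθ : Real.log (2 / u) / l ≤ θ / 4 := by
    rw [div_le_div_iff₀ hl0 (by norm_num)]
    have h1 : 4 * Real.log (2 / u) / θ ≤ l := by
      have h2 : 0 < 4 / β := by positivity
      linarith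
    rw [div_le_iff₀ hθ0] at h1
    linarith
  refine ⟨l, β, u, hl1, hβ0, hu0, hu1, ?_⟩
  have t1 : Tendsto (fun n : ℕ => (n : ℝ)) atTop atTop := tendsto_natCast_atTop_atTop
  have t2 : Tendsto (fun n : ℕ => Real.sqrt (n : ℝ)) atTop atTop :=
    Real.tendsto_sqrt_atTop.comp t1
  have t3 : Tendsto (fun n : ℕ => Real.exp (-(θ / 2 * (n : ℝ)))) atTop (𝓝 0) :=
    Real.tendsto_exp_neg_atTop_nhds_zero.comp (t1.const_mul_atTop (by positivity))
  filter_upwards [t1.eventually_ge_atTop (1 / α), t1.eventually_ge_atTop (2 / β),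
    t1.eventually_ge_atTop (2 * l / η), t1.eventually_ge_atTop 1,
    t2.eventually_ge_atTop (8 / η ^ 2), t2.eventually_ge_atTop (2 * B / η),
    t3.eventually_le_const (show (0 : ℝ) < η / 2 by positivity)] with n c1 c2 c3 c4 c5 c6 c7
  set x : ℝ := (n : ℝ) with hxn
  have hx0 : 0 < x := by linarith
  have hs0 : 0 < Real.sqrt x := Real.sqrt_pos.2 hx0
  have hss : Real.sqrt x * Real.sqrt x = x := Real.mul_self_sqrt hx0.le
  have e1 : 1 ≤ α * x := by
    rw [div_le_iff₀ hα] at c1; linarith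
  have e2 : 2 ≤ β * x := by
    rw [div_le_iff₀ hβ0] at c2; linarith
  have e3 : 2 * l ≤ η * x := by
    rw [div_le_iff₀ hη] at c3; linarith
  have e5 : 8 ≤ η ^ 2 * Real.sqrt x := by
    rw [div_le_iff₀ (by positivity)] at c5; linarith
  have e6 : 2 * B ≤ η * Real.sqrt x := by
    rw [div_le_iff₀ hη] at c6; linarith
  have f1 : 0 < ⌊α * x⌋₊ := Nat.floor_pos.2 e1
  have f2 : ((⌊α * x⌋₊ : ℕ) : ℝ) ≤ α * x := Nat.floor_le (by positivity)
  have f3 : ((⌊β * x⌋₊ : ℕ) : ℝ) ≤ β * x := Nat.floor_le (by positivity)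
  have f4 : β * x < ((⌊β * x⌋₊ : ℕ) : ℝ) + 1 := Nat.lt_floor_add_one _
  have g1 : x / l ≤ β * x / 4 := by
    calc x / l = 1 / l * x := by ring
      _ ≤ β / 4 * x := mul_le_mul_of_nonneg_right hlβ hx0.le
      _ = β * x / 4 := by ring
  have h32 : x ^ (3 / 2 : ℝ) = x * Real.sqrt x := rpow_three_half hx0
  have h32' : x ^ (3 / 2 : ℝ) ≤ (η * x) ^ 2 / 8 := by
    rw [h32]
    have h1 : x * Real.sqrt x * 8 ≤ x * Real.sqrt x * (η ^ 2 * Real.sqrt x) :=
      mul_le_mul_of_nonneg_left e5 (by positivity)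
    have h2 : x * Real.sqrt x * (η ^ 2 * Real.sqrt x) = (η * x) ^ 2 := by
      calc x * Real.sqrt x * (η ^ 2 * Real.sqrt x)
          = x * η ^ 2 * (Real.sqrt x * Real.sqrt x) := by ring
        _ = (η * x) ^ 2 := by rw [hss]; ring
    rw [h2] at h1
    linarith
  refine ⟨f1, Nat.floor_le_floor (mul_le_mul_of_nonneg_right hβα hx0.le), ?_, ?_, ?_, ?_⟩
  · have h1 : β * x ≤ η / 2 * x := mul_le_mul_of_nonneg_right hβη hx0.le
    linarith
  · linarith
  · have : 0 ≤ (η * x) ^ 2 := by positivity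
    linarith
  · intro q hq
    have k1 : x ^ 2 * (B / x) / x ^ (3 / 2 : ℝ) ≤ η / 2 := by
      rw [h32]
      have h1 : x ^ 2 * (B / x) / (x * Real.sqrt x) = B / Real.sqrt x := by
        field_simp
      rw [h1, div_le_iff₀ hs0]
      linarith
    have k2 : (2 / u) ^ (x / l) ≤ Real.exp (θ / 4 * x) := by
      rw [Real.rpow_def_of_pos (by positivity)]
      apply Real.exp_le_exp.2
      calc Real.log (2 / u) * (x / l) = Real.log (2 / u) / l * x := by ring
        _ ≤ θ / 4 * x := mul_le_mul_of_nonneg_right hlθ hx0.le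
    have k3 : (1 + u) ^ ⌊α * x⌋₊ ≤ Real.exp (θ / 4 * x) := by
      have h1 : 1 + u ≤ Real.exp u := by
        have := Real.add_one_le_exp u
        linarith
      calc (1 + u) ^ ⌊α * x⌋₊ ≤ (Real.exp u) ^ ⌊α * x⌋₊ :=
            pow_le_pow_left₀ (by positivity) h1 _
        _ = Real.exp (((⌊α * x⌋₊ : ℕ) : ℝ) * u) := (Real.exp_nat_mul u _).symm
        _ ≤ Real.exp (θ / 4 * x) := by
          apply Real.exp_le_exp.2
          calc ((⌊α * x⌋₊ : ℕ) : ℝ) * u ≤ (α * x) * u := mul_le_mul_of_nonneg_right f2 hu0.le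
            _ = α * u * x := by ring
            _ ≤ θ / 4 * x := mul_le_mul_of_nonneg_right huα hx0.le
    have k4 : θ * x ≤ q * (((⌊β * x⌋₊ : ℕ) : ℝ) - x / l) / ((⌊α * x⌋₊ : ℕ) : ℝ) *
        ((η * x) ^ 2 / 4 - x ^ (3 / 2 : ℝ)) := by
      refine expo hd hβ0 hα hη hx0 hq ?_ (by exact_mod_cast f1) f2 ?_
      · linarith
      · have : (η * x) ^ 2 / 4 = (η * x) ^ 2 / 8 + (η * x) ^ 2 / 8 := by ring
        linarith
    have k5 : Real.exp (-(q * (((⌊β * x⌋₊ : ℕ) : ℝ) - x / l) / ((⌊α * x⌋₊ : ℕ) : ℝ) *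
        ((η * x) ^ 2 / 4 - x ^ (3 / 2 : ℝ)))) ≤ Real.exp (-(θ * x)) :=
      Real.exp_le_exp.2 (neg_le_neg k4)
    have k6 : (2 / u) ^ (x / l) * (1 + u) ^ ⌊α * x⌋₊ *
        Real.exp (-(q * (((⌊β * x⌋₊ : ℕ) : ℝ) - x / l) / ((⌊α * x⌋₊ : ℕ) : ℝ) *
        ((η * x) ^ 2 / 4 - x ^ (3 / 2 : ℝ)))) ≤ η / 2 := by
      calc _ ≤ Real.exp (θ / 4 * x) * Real.exp (θ / 4 * x) * Real.exp (-(θ * x)) :=
            mul_le_mul (mul_le_mul k2 k3 (by positivity) (by positivity)) k5
              (by positivity) (by positivity)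
        _ = Real.exp (-(θ / 2 * x)) := by
            rw [← Real.exp_add, ← Real.exp_add]
            congr 1
            ring
        _ ≤ η / 2 := c7
    linarith

end Pool.Agent.L7h40.RT
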